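import Mathlib

set_option autoImplicit false

namespace Pool.Agent.FS.ManyZeros

/-- The delays `1, 16, 64, 144, …` of the filter. -/
def s (j : ℕ) : ℕ := if j = 0 then 1 else 16 * j ^ 2

/-- The extrapolation weights of the filter of order `m + 1`. -/
noncomputable def d (m j : ℕ) : ℝ :=
  ∏ i ∈ (Finset.range (m + 1)).erase j, (s i : ℝ) / ((s i : ℝ) - s j)

/-- The kernel. -/
noncomputable def κ (t x : ℝ) : ℝ := 1 / (t ^ 2 + x ^ 2)

lemma s_pos (j : ℕ) : 1 ≤ s j := by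
  unfold s
  split_ifs with h
  · rfl
  · have : 1 ≤ j := by omega
    nlinarith

lemma s_inj : Function.Injective s := by
  intro a b h
  unfold s at h
  split_ifs at h with h1 h2 h2
  · omega
  · omega
  · omega
  · have : a ^ 2 = b ^ 2 := by omega
    exact Nat.pow_left_injective (by norm_num) this

lemma s_zero : s 0 = 1 := rfl

lemma s_succ (j : ℕ) : (s (j + 1) : ℝ) = 16 * ((j : ℝ) + 1) ^ 2 := by
  simp [s]

lemma κ_nonneg (t x : ℝ) : 0 ≤ κ t x := by unfold κ; positivity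

lemma κ_le {t x y : ℝ} (hy : 0 < y) (h : y ≤ x) : κ t x ≤ 1 / y ^ 2 := by
  unfold κ
  apply one_div_le_one_div_of_le (by positivity)
  nlinarith [sq_nonneg t]

lemma summable_sq : Summable fun n : ℕ => 1 / ((n : ℝ) + 1) ^ 2 := by
  have := (summable_nat_add_iff 1).2 (Real.summable_one_div_nat_pow.2 one_lt_two)
  simpa using this

lemma tsum_sq_le : ∑' n : ℕ, 1 / ((n : ℝ) + 1) ^ 2 ≤ 2 := by
  have h := (hasSum_nat_add_iff' 1).2 hasSum_zeta_two
  have h2 : HasSum (fun n : ℕ => 1 / ((n : ℝ) + 1) ^ 2) (Real.pi ^ 2 / 6) := by simpa using h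
  rw [h2.tsum_eq]
  nlinarith [Real.pi_lt_d2, Real.pi_pos]

lemma summable_κ {v : ℕ → ℝ} {B : ℝ} (hv : ∀ n, |v n| ≤ B) (t : ℝ) {c : ℝ} (hc : 1 ≤ c) :
    Summable fun n : ℕ => v n * κ t (n + c) := by
  refine Summable.of_norm_bounded (summable_sq.mul_left B) fun n => ?_
  rw [Real.norm_eq_abs, abs_mul, abs_of_nonneg (κ_nonneg _ _)]
  exact mul_le_mul (hv n) (κ_le (by positivity) (by linarith)) (κ_nonneg _ _)
    ((abs_nonneg _).trans (hv n))

lemma HasSum.congr_of_eq' {f g : ℕ → ℝ} {a : ℝ} (h : HasSum f a) (e : ∀ n, g n = f n) :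
    HasSum g a := by
  rw [show g = f from funext e]
  exact h

end Pool.Agent.FS.ManyZeros
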