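import Pool.Agent.FS.ManyZeros.Defs

set_option autoImplicit false

open Finset

namespace Pool.Agent.FS.ManyZeros

lemma low1 (l : ℕ) : ∏ i ∈ range l, ((l : ℝ) - i) = l.factorial := by
  induction l with
  | zero => simp
  | succ l ih =>
    rw [prod_range_succ', Nat.factorial_succ]
    push_cast
    simp only [add_sub_add_right_eq_sub, ih]
    ring

lemma up1 (a k : ℕ) : ∏ i ∈ range k, ((a : ℝ) + 1 + i) = (a + k).factorial / a.factorial := by
  have : (a.factorial : ℝ) ≠ 0 := by positivity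
  induction k with
  | zero => simp [this]
  | succ k ih =>
    rw [prod_range_succ, ih, ← add_assoc, Nat.factorial_succ]
    push_cast
    field_simp
    ring

lemma up0 (k : ℕ) : ∏ i ∈ range k, ((i : ℝ) + 1) = k.factorial := by
  have := up1 0 k
  simpa [add_comm] using this

lemma fac_le (j a b : ℕ) (h : a ≤ b) :
    (a + j).factorial * b.factorial ≤ (b + j).factorial * a.factorial := by
  induction j with
  | zero => simp [mul_comm]
  | succ j ih =>
    rw [← add_assoc, ← add_assoc, Nat.factorial_succ, Nat.factorial_succ, mul_assoc, mul_assoc]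
    exact Nat.mul_le_mul (by omega) ih

lemma d_split (j k : ℕ) : |d (j + k) j| =
    (∏ i ∈ range j, |(s i : ℝ) / ((s i : ℝ) - s j)|) *
      ∏ i ∈ range k, |(s (j + i + 1) : ℝ) / ((s (j + i + 1) : ℝ) - s j)| := by
  have h : (range (j + k + 1)).erase j = range j ∪ Ico (j + 1) (j + k + 1) := by
    ext i
    simp only [mem_erase, mem_range, mem_union, mem_Ico]
    omega
  rw [d, abs_prod, h, prod_union, prod_Ico_eq_prod_range]
  · congr 1
    rw [show j + k + 1 - (j + 1) = k by omega]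
    refine prod_congr rfl fun i _ => ?_
    rw [show j + 1 + i = j + i + 1 by omega]
  · rw [disjoint_left]
    intro i h1 h2
    simp only [mem_range, mem_Ico] at h1 h2
    omega

lemma d_zero (m : ℕ) : |d m 0| ≤ 6 / 5 := by
  have h := d_split 0 m
  simp only [zero_add, range_zero, prod_empty, one_mul, s_succ, s_zero, Nat.cast_one] at h
  rw [h]
  have : ∀ m : ℕ, ∏ i ∈ range m, |16 * ((i : ℝ) + 1) ^ 2 / (16 * ((i : ℝ) + 1) ^ 2 - 1)| ≤
      6 / 5 - 1 / (5 * ((m : ℝ) + 1)) := by
    intro m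
    induction m with
    | zero => norm_num
    | succ m ih =>
      have hm : (0 : ℝ) ≤ m := by positivity
      have h1 : 0 < 16 * ((m : ℝ) + 1) ^ 2 - 1 := by nlinarith
      rw [prod_range_succ, abs_of_nonneg (a := 16 * ((m : ℝ) + 1) ^ 2 / _) (by positivity)]
      refine (mul_le_mul_of_nonneg_right ih (by positivity)).trans ?_
      push_cast
      have e1 : 16 * ((m : ℝ) + 1) ^ 2 / (16 * ((m : ℝ) + 1) ^ 2 - 1) =
          1 + 1 / (16 * ((m : ℝ) + 1) ^ 2 - 1) := by
        rw [one_add_div h1.ne']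
        congr 1
        ring
      have e2 : 1 / (5 * ((m : ℝ) + 1)) - 1 / (5 * ((m : ℝ) + 1 + 1)) =
          1 / (5 * ((m + 1) * (m + 2))) := by
        field_simp
        ring
      have e3 : 6 / 5 * (1 / (16 * ((m : ℝ) + 1) ^ 2 - 1)) ≤ 1 / (5 * ((m + 1) * (m + 2))) := by
        rw [mul_one_div, div_le_div_iff₀ h1 (by positivity)]
        nlinarith
      have e4 : 0 ≤ 1 / (5 * ((m : ℝ) + 1)) * (1 / (16 * ((m : ℝ) + 1) ^ 2 - 1)) := by positivity
      rw [e1]
      nlinarith
  refine (this m).trans ?_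
  have : 0 ≤ 1 / (5 * ((m : ℝ) + 1)) := by positivity
  linarith

lemma d_succ (l k : ℕ) : |d (l + 1 + k) (l + 1)| ≤ 2 / (16 * ((l : ℝ) + 1) ^ 2 - 1) := by
  have hl : (0 : ℝ) ≤ l := by positivity
  have h1 : 0 < 16 * ((l : ℝ) + 1) ^ 2 - 1 := by nlinarith
  rw [d_split, prod_range_succ']
  have e0 : |(s 0 : ℝ) / ((s 0 : ℝ) - s (l + 1))| = 1 / (16 * ((l : ℝ) + 1) ^ 2 - 1) := by
    rw [s_zero, s_succ, abs_div, abs_sub_comm]
    simp [abs_of_pos h1]
  have e1 : ∏ i ∈ range l, |(s (i + 1) : ℝ) / ((s (i + 1) : ℝ) - s (l + 1))| =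
      (l.factorial * l.factorial) /
        (l.factorial * ((l + 1 + l).factorial / (l + 1).factorial)) := by
    rw [← up1 (l + 1) l]
    nth_rewrite 3 [← low1 l]
    rw [← up0 l, ← prod_mul_distrib, ← prod_mul_distrib, ← prod_div_distrib]
    refine prod_congr rfl fun i hi => ?_
    have hi' : (i : ℝ) + 1 ≤ l := by exact_mod_cast mem_range.1 hi
    have hi0 : (0 : ℝ) ≤ i := by positivity
    have h2 : 0 < (l : ℝ) - i := by linarith
    rw [s_succ, s_succ, abs_div, abs_sub_comm,
      show 16 * ((l : ℝ) + 1) ^ 2 - 16 * ((i : ℝ) + 1) ^ 2 = 16 * ((l - i) * (l + 1 + 1 + i)) by ring,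
      abs_of_pos (by positivity), abs_of_pos (by positivity)]
    push_cast
    field_simp
  have e2 : ∏ i ∈ range k, |(s (l + 1 + i + 1) : ℝ) / ((s (l + 1 + i + 1) : ℝ) - s (l + 1))| =
      ((l + 1 + k).factorial / (l + 1).factorial * ((l + 1 + k).factorial / (l + 1).factorial)) /
        (k.factorial * ((l + 1 + l + 1 + k).factorial / (l + 1 + l + 1).factorial)) := by
    rw [← up1 (l + 1) k, ← up1 (l + 1 + l + 1) k, ← up0 k, ← prod_mul_distrib, ← prod_mul_distrib,
      ← prod_div_distrib]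
    refine prod_congr rfl fun i _ => ?_
    have hi0 : (0 : ℝ) ≤ i := by positivity
    rw [s_succ, s_succ, abs_div]
    push_cast
    rw [show 16 * ((l : ℝ) + 1 + i + 1) ^ 2 - 16 * ((l : ℝ) + 1) ^ 2 =
        16 * ((i + 1) * (l + 1 + l + 1 + 1 + i)) by ring,
      abs_of_pos (by positivity), abs_of_pos (by positivity)]
    field_simp
    ring
  rw [e0, e1, e2]
  have h3 : (((l + 1 + k).factorial : ℝ)) * (l + 1 + k).factorial ≤
      (l + 1 + l + 1 + k).factorial * k.factorial := by
    have := fac_le (l + 1) k (l + 1 + k) (by omega)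
    rw [show k + (l + 1) = l + 1 + k by omega,
      show l + 1 + k + (l + 1) = l + 1 + l + 1 + k by omega] at this
    exact_mod_cast this
  have h4 : ((l + 1 + l + 1).factorial : ℝ) = 2 * (l + 1) * (l + 1 + l).factorial := by
    rw [Nat.factorial_succ]; push_cast; ring
  have h5 : ((l + 1).factorial : ℝ) = (l + 1) * l.factorial := by
    rw [Nat.factorial_succ]; push_cast; ring
  rw [h4, h5]
  have p1 : (0 : ℝ) < l.factorial := by positivity
  have p2 : (0 : ℝ) < k.factorial := by positivity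
  have p3 : (0 : ℝ) < (l + 1 + l).factorial := by positivity
  have p4 : (0 : ℝ) < (l + 1 + l + 1 + k).factorial := by positivity
  generalize (l.factorial : ℝ) = A at *
  generalize (k.factorial : ℝ) = B at *
  generalize ((l + 1 + l).factorial : ℝ) = C at *
  generalize ((l + 1 + l + 1 + k).factorial : ℝ) = D at *
  generalize ((l + 1 + k).factorial : ℝ) = E at *
  generalize 16 * ((l : ℝ) + 1) ^ 2 - 1 = G at *
  calc _ = 2 / G * (E * E / (D * B)) := by field_simp
    _ ≤ 2 / G * 1 := by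
      gcongr
      exact (div_le_one (by positivity)).2 h3
    _ = _ := mul_one _

lemma d_sum (m : ℕ) : ∑ j ∈ range (m + 1), |d m j| ≤ 3 / 2 := by
  rw [sum_range_succ']
  have h1 : ∑ l ∈ range m, |d m (l + 1)| ≤
      ∑ l ∈ range m, (4 / 15 * (1 / ((l : ℝ) + 1)) - 4 / 15 * (1 / (((l + 1 : ℕ) : ℝ) + 1))) := by
    refine sum_le_sum fun l hl => ?_
    obtain ⟨k, rfl⟩ := Nat.exists_eq_add_of_le (Nat.succ_le_of_lt (mem_range.1 hl))
    refine (d_succ l k).trans ?_
    have hl : (0 : ℝ) ≤ l := by positivity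
    have h1 : 0 < 16 * ((l : ℝ) + 1) ^ 2 - 1 := by nlinarith
    push_cast
    rw [show 4 / 15 * (1 / ((l : ℝ) + 1)) - 4 / 15 * (1 / ((l : ℝ) + 1 + 1)) =
      4 / (15 * ((l + 1) * (l + 2))) by field_simp; ring, div_le_div_iff₀ h1 (by positivity)]
    nlinarith
  rw [sum_range_sub' (fun l : ℕ => 4 / 15 * (1 / ((l : ℝ) + 1)))] at h1
  have h2 : 0 ≤ 4 / 15 * (1 / ((m : ℝ) + 1)) := by positivity
  have h3 := d_zero m
  simp only [Nat.cast_zero, zero_add, div_one] at h1
  linarith

end Pool.Agent.FS.ManyZeros
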