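import Pool.Agent.FS.ManyZeros.Defs

set_option autoImplicit false

open Finset Polynomial

namespace Pool.Agent.FS.ManyZeros

lemma pf (S : Finset ℕ) (σ : ℕ → ℂ) (hinj : Set.InjOn σ S) (h0 : ∀ i ∈ S, σ i ≠ 0) (ζ : ℂ)
    (hζ : ζ ≠ 0) (hz : ∀ i ∈ S, ζ + σ i ≠ 0) :
    1 / ζ - ∑ j ∈ S, (∏ i ∈ S.erase j, σ i / (σ i - σ j)) * (1 / (ζ + σ j)) =
      (∏ i ∈ S, σ i / (ζ + σ i)) / ζ := by
  set v : ℕ → ℂ := fun i => -σ i with hv
  have hvi : Set.InjOn v S := fun a ha b hb h => hinj ha hb (neg_injective h)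
  set N := Lagrange.nodal S v with hN
  have hN0 : N.coeff 0 = ∏ i ∈ S, σ i := by
    rw [coeff_zero_eq_eval_zero, hN, Lagrange.eval_nodal]
    simp [hv]
  have hQ : ∀ x, (divX N).eval x * x + ∏ i ∈ S, σ i = N.eval x := by
    intro x
    have := congrArg (eval x) (divX_mul_X_add N)
    rw [← hN0]
    simpa using this
  have hdeg : (divX N).degree < #S := by
    rw [← Lagrange.degree_nodal (s := S) (v := v)]
    exact degree_divX_lt Lagrange.nodal_ne_zero
  have hx : ∀ i ∈ S, ζ ≠ v i := fun i hi h => hz i hi (by rw [h, hv]; ring)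
  have h := Lagrange.eval_interpolate_not_at_node (s := S) (v := v)
    (fun i => (divX N).eval (v i)) hx
  rw [← Lagrange.eq_interpolate hvi hdeg, ← hN] at h
  have hs : ∑ j ∈ S, Lagrange.nodalWeight S v j * (ζ - v j)⁻¹ * (divX N).eval (v j) =
      ∑ j ∈ S, (∏ i ∈ S.erase j, σ i / (σ i - σ j)) * (1 / (ζ + σ j)) := by
    refine sum_congr rfl fun j hj => ?_
    have h1 := hQ (v j)
    rw [hN, Lagrange.eval_nodal_at_node hj, ← hN, ← mul_prod_erase S σ hj] at h1
    have h2 : (divX N).eval (v j) = ∏ i ∈ S.erase j, σ i := by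
      apply mul_left_cancel₀ (h0 j hj)
      simp only [hv] at h1 ⊢
      linear_combination -h1
    rw [h2, Lagrange.nodalWeight]
    simp only [hv, div_eq_mul_inv, prod_mul_distrib, sub_neg_eq_add, neg_add_eq_sub, one_mul]
    ring
  rw [hs] at h
  have hNz : N.eval ζ = ∏ i ∈ S, (ζ + σ i) := by
    rw [hN, Lagrange.eval_nodal]
    simp [hv]
  have hne : N.eval ζ ≠ 0 := Lagrange.eval_nodal_not_at_node hx
  rw [prod_div_distrib, ← hNz]
  have h3 := hQ ζ
  rw [h] at h3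
  generalize ∑ j ∈ S, (∏ i ∈ S.erase j, σ i / (σ i - σ j)) * (1 / (ζ + σ j)) = W at h3 ⊢
  field_simp
  linear_combination -h3

lemma imk (t w : ℝ) : (1 / ((w : ℂ) - t * Complex.I)).im = t * κ t w := by
  simp only [one_div, Complex.inv_im, Complex.normSq_apply, κ]
  simp only [Complex.sub_im, Complex.ofReal_im, Complex.mul_im, Complex.ofReal_re, Complex.I_im,
    Complex.I_re, Complex.sub_re, Complex.mul_re]
  rw [div_eq_mul_inv]
  congr 1
  · ring
  · congr 1
    ring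

lemma filt (m r ρ : ℕ) (t x : ℝ) (hρ : 1 ≤ ρ) (hm : 1 ≤ m) (hx : 1 ≤ x)
    (ht : 32 * (ρ : ℝ) * (m : ℝ) ^ 2 ≤ t) :
    |κ t x - ∑ j ∈ range (m + r + 1), d (m + r) j * κ t (x + ρ * s j)| ≤ (1 / 2) ^ m / x ^ 2 := by
  have hρ' : (1 : ℝ) ≤ ρ := by exact_mod_cast hρ
  have hm' : (1 : ℝ) ≤ m := by exact_mod_cast hm
  have hρt : (ρ : ℝ) ≤ t := by nlinarith [mul_le_mul_of_nonneg_left (one_le_pow₀ (n := 2) hm') (by linarith : (0:ℝ) ≤ ρ)]
  have ht0 : 0 < t := by linarith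
  have hs : ∀ j, (1 : ℝ) ≤ s j := fun j => by exact_mod_cast s_pos j
  set ζ : ℂ := (x : ℂ) - t * Complex.I with hζ
  set σ : ℕ → ℂ := fun j => (((ρ : ℝ) * s j : ℝ) : ℂ) with hσ
  have hρ0 : (ρ : ℝ) ≠ 0 := by linarith
  have hre : ∀ w : ℝ, 0 ≤ w → x ≤ ‖ζ + w‖ := fun w hw => by
    refine le_trans ?_ (Complex.re_le_norm _)
    simp [hζ, hw]
  have him : ∀ w : ℝ, t ≤ ‖ζ + w‖ := fun w => by
    refine le_trans ?_ (Complex.abs_im_le_norm _)
    simp [hζ, abs_of_pos ht0]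
  have hζx : x ≤ ‖ζ‖ := by simpa using hre 0 le_rfl
  have h := pf (range (m + r + 1)) σ
    (fun a _ b _ h => by
      have h1 : (ρ : ℝ) * s a = ρ * s b := Complex.ofReal_injective h
      exact s_inj (by exact_mod_cast mul_left_cancel₀ hρ0 h1))
    (fun i _ => Complex.ofReal_ne_zero.2 (mul_ne_zero hρ0 (by linarith [hs i])))
    ζ (norm_pos_iff.1 (by linarith)) (fun i _ => norm_pos_iff.1 (lt_of_lt_of_le ht0 (him _)))
  have hd : ∀ j, ∏ i ∈ (range (m + r + 1)).erase j, σ i / (σ i - σ j) = (d (m + r) j : ℂ) := by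
    intro j
    rw [d, Complex.ofReal_prod]
    refine prod_congr rfl fun i _ => ?_
    rw [hσ]
    simp only
    rw [← Complex.ofReal_sub, ← Complex.ofReal_div, ← mul_sub, mul_div_mul_left _ _ hρ0]
  have hI : t * (κ t x - ∑ j ∈ range (m + r + 1), d (m + r) j * κ t (x + ρ * s j)) =
      ((∏ i ∈ range (m + r + 1), σ i / (ζ + σ i)) / ζ).im := by
    rw [← h, Complex.sub_im, hζ, imk, Complex.im_sum, mul_sub, mul_sum]
    congr 1
    refine sum_congr rfl fun j _ => ?_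
    have : (x : ℂ) - t * Complex.I + σ j = ((x + ρ * s j : ℝ) : ℂ) - t * Complex.I := by
      rw [hσ]; push_cast; ring
    rw [hd, Complex.im_ofReal_mul, this, imk]
    ring
  have hn : ∀ j, ‖σ j‖ = ρ * s j := fun j => by
    rw [hσ]
    simp only
    rw [Complex.norm_real, Real.norm_eq_abs, abs_of_nonneg (by positivity)]
  have hB : ‖(∏ i ∈ range (m + r + 1), σ i / (ζ + σ i)) / ζ‖ ≤ t * ((1 / 2) ^ m / x ^ 2) := by
    rw [norm_div, prod_range_succ', norm_mul, norm_prod, prod_range_add]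
    have h0 : ∏ i ∈ range r, ‖σ (m + i + 1) / (ζ + σ (m + i + 1))‖ ≤ 1 := by
      refine prod_le_one (fun _ _ => norm_nonneg _) fun i _ => ?_
      rw [norm_div, hn]
      refine div_le_one_of_le₀ (le_trans ?_ (Complex.re_le_norm _)) (norm_nonneg _)
      simp only [hζ, hσ, Complex.add_re, Complex.sub_re, Complex.ofReal_re, Complex.mul_re,
        Complex.I_re, Complex.I_im, Complex.ofReal_im]
      linarith
    have h1 : ∏ i ∈ range m, ‖σ (i + 1) / (ζ + σ (i + 1))‖ ≤ (1 / 2) ^ m := by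
      refine (prod_le_prod (fun _ _ => norm_nonneg _) (g := fun _ => (1 / 2 : ℝ))
        fun i hi => ?_).trans (by simp)
      have h3 : t ≤ ‖ζ + σ (i + 1)‖ := him _
      rw [norm_div, hn, div_le_iff₀ (lt_of_lt_of_le ht0 h3), s_succ]
      have hi' : (i : ℝ) + 1 ≤ m := by exact_mod_cast mem_range.1 hi
      have h2 : ((i : ℝ) + 1) ^ 2 ≤ (m : ℝ) ^ 2 := by gcongr
      nlinarith [mul_le_mul_of_nonneg_left h2 (by linarith : (0:ℝ) ≤ ρ)]
    have h2 : ‖σ 0 / (ζ + σ 0)‖ ≤ t / x := by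
      rw [norm_div, hn, s_zero]
      exact div_le_div₀ ht0.le (by simpa using hρt) (by linarith) (hre _ (by positivity))
    calc _ ≤ (1 / 2) ^ m * (t / x) / x := by
          refine div_le_div₀ (by positivity) ?_ (by linarith) hζx
          exact mul_le_mul ((mul_le_of_le_one_right (prod_nonneg fun _ _ => norm_nonneg _) h0).trans
            h1) h2 (norm_nonneg _) (by positivity)
      _ = _ := by field_simp
  have := (Complex.abs_im_le_norm _).trans hB
  rw [← hI, abs_mul, abs_of_pos ht0] at this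
  exact le_of_mul_le_mul_left this ht0

end Pool.Agent.FS.ManyZeros
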