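import Pool.Agent.FS.ManyZeros.Prod

set_option autoImplicit false

open Finset Polynomial

namespace Pool.Agent.FS.ManyZeros

lemma pf2 (M : ℕ) (x u : ℕ → ℝ) (hx : Function.Injective x) (x0 : ∀ j, 0 < x j)
    (u0 : ∀ i, 0 < u i) (z : ℝ) (hz : 0 ≤ z) :
    ∑ j ∈ range (M + 1), (x j * (∏ l ∈ (range (M + 1)).erase j, x l / (x l - x j)) *
      ∏ i ∈ range M, (1 + x j / u i)) * (1 / (z + x j)) =
      (∏ i ∈ range M, (1 - z / u i)) / ∏ j ∈ range (M + 1), (1 + z / x j) := by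
  set v : ℕ → ℝ := fun j => -x j with hv
  have hvi : Set.InjOn v (range (M + 1)) := fun a _ b _ h => hx (neg_injective h)
  have hdeg : (Lagrange.nodal (range M) u).degree < #(range (M + 1)) := by
    rw [Lagrange.degree_nodal, card_range, card_range]
    exact_mod_cast Nat.lt_succ_self M
  have h := Lagrange.eval_interpolate_not_at_node (s := range (M + 1)) (v := v) (x := z)
    (fun i => (Lagrange.nodal (range M) u).eval (v i))
    (fun j _ h => by have := x0 j; simp only [hv] at h; linarith)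
  rw [← Lagrange.eq_interpolate hvi hdeg] at h
  simp only [Lagrange.eval_nodal, Lagrange.nodalWeight, hv, sub_neg_eq_add, neg_add_eq_sub] at h
  have e1 : ∀ w : ℝ, ∏ i ∈ range M, (1 - w / u i) =
      (∏ i ∈ range M, (w - u i)) / ∏ i ∈ range M, (-u i) := fun w => by
    rw [← prod_div_distrib]
    refine prod_congr rfl fun i _ => ?_
    have := (u0 i).ne'
    field_simp
    ring
  have e2 : ∏ j ∈ range (M + 1), (1 + z / x j) =
      (∏ j ∈ range (M + 1), (z + x j)) / ∏ j ∈ range (M + 1), x j := by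
    rw [← prod_div_distrib]
    refine prod_congr rfl fun i _ => ?_
    have := (x0 i).ne'
    field_simp
    ring
  have e3 : ∑ j ∈ range (M + 1), (x j * (∏ l ∈ (range (M + 1)).erase j, x l / (x l - x j)) *
      ∏ i ∈ range M, (1 + x j / u i)) * (1 / (z + x j)) =
      (∏ j ∈ range (M + 1), x j) / (∏ i ∈ range M, (-u i)) * ∑ j ∈ range (M + 1),
        (∏ l ∈ (range (M + 1)).erase j, (x l - x j)⁻¹) * (z + x j)⁻¹ *
          ∏ i ∈ range M, (-x j - u i) := by
    rw [mul_sum]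
    refine sum_congr rfl fun j hj => ?_
    have := e1 (-x j)
    simp only [neg_div, sub_neg_eq_add] at this
    rw [this, ← mul_prod_erase _ x hj]
    simp only [div_eq_mul_inv, prod_mul_distrib]
    ring
  have n1 : ∏ j ∈ range (M + 1), (z + x j) ≠ 0 :=
    (prod_pos fun j _ => by linarith [x0 j]).ne'
  have n2 : ∏ j ∈ range (M + 1), x j ≠ 0 := (prod_pos fun j _ => x0 j).ne'
  have n3 : ∏ i ∈ range M, (-u i) ≠ 0 := prod_ne_zero_iff.2 fun i _ => by linarith [u0 i]
  rw [e3, e1, e2, h]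
  generalize ∑ j ∈ range (M + 1), (∏ l ∈ (range (M + 1)).erase j, (x l - x j)⁻¹) * (z + x j)⁻¹ *
          ∏ i ∈ range M, (-x j - u i) = W
  field_simp

/-- The test points. -/
noncomputable def τ (k : ℕ) : ℝ := 32 * (768 * (2 * (k : ℝ) + 1)) ^ 2

noncomputable def xx (j : ℕ) : ℝ := (131072 * ((j : ℝ) + 1) ^ 2) ^ 2

noncomputable def uu (i : ℕ) : ℝ := (131072 * 576 * ((i : ℝ) + 1) ^ 2) ^ 2

noncomputable def Y (M j : ℕ) : ℝ :=
  xx j * (∏ l ∈ (range (M + 1)).erase j, xx l / (xx l - xx j)) * ∏ i ∈ range M, (1 + xx j / uu i)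

lemma Y_le (M j : ℕ) (hj : j ∈ range (M + 1)) : |Y M j| ≤ 2 ^ 79 := by
  obtain ⟨k, rfl⟩ := Nat.exists_eq_add_of_le (Nat.lt_succ_iff.1 (mem_range.1 hj))
  have a1 : |∏ l ∈ (range (j + k + 1)).erase j, xx l / (xx l - xx j)| ≤ 2 * (1 / 2) ^ j := by
    refine le_trans (le_of_eq ?_) (mul_le_mul (core j k) (half j k)
      (prod_nonneg fun _ _ => by positivity) (by norm_num))
    rw [abs_prod, ← prod_mul_distrib]
    refine prod_congr rfl fun l _ => ?_
    rw [← abs_of_nonneg (a := ((l : ℝ) + 1) ^ 2 / (((l : ℝ) + 1) ^ 2 + ((j : ℝ) + 1) ^ 2))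
      (by positivity), ← abs_mul, div_mul_div_comm,
      ← mul_div_mul_left (((l : ℝ) + 1) ^ 2 * ((l : ℝ) + 1) ^ 2) _
        (by norm_num : (131072 : ℝ) ^ 2 ≠ 0)]
    unfold xx
    congr 2 <;> ring
  have a2 : ∏ i ∈ range (j + k), (1 + xx j / uu i) ≤ 4096 ^ ((j + 1) / 24 + 1) := by
    refine le_trans (le_of_eq (prod_congr rfl fun i _ => ?_))
      (pb ((j + 1) / 24 + 1) (j + k) (z := ((j : ℝ) + 1) / 24) (by positivity) ?_)
    · unfold xx uu
      field_simp
      ring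
    · rw [div_le_iff₀ (by norm_num)]
      have : j + 1 ≤ ((j + 1) / 24 + 1) * 24 := by omega
      exact_mod_cast this
  have a3 : ((j : ℝ) + 1) ^ 4 * 4096 ^ ((j + 1) / 24 + 1) ≤ 2 ^ 44 * 2 ^ j := by
    exact_mod_cast nb j
  have p1 : 0 ≤ ∏ i ∈ range (j + k), (1 + xx j / uu i) :=
    prod_nonneg fun _ _ => by unfold xx uu; positivity
  have p2 : 0 ≤ xx j := by unfold xx; positivity
  rw [Y, abs_mul, abs_mul, abs_of_nonneg p1, abs_of_nonneg p2]
  calc _ ≤ xx j * (2 * (1 / 2) ^ j) * 4096 ^ ((j + 1) / 24 + 1) := by gcongr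
    _ = 2 ^ 35 * (1 / 2) ^ j * (((j : ℝ) + 1) ^ 4 * 4096 ^ ((j + 1) / 24 + 1)) := by
      unfold xx; ring
    _ ≤ 2 ^ 35 * (1 / 2) ^ j * (2 ^ 44 * 2 ^ j) := by gcongr
    _ = _ := by rw [one_div_pow]; field_simp

lemma targ (M : ℕ) : ∃ y : ℕ → ℝ, (∀ n, |y n| ≤ 1 / 2) ∧ ∀ k < M,
    (1 / 2) ^ (291 * k + 371) ≤ (-1) ^ k * ∑' n : ℕ, y n * κ (τ k) (n + 1) := by
  set q : ℕ → ℕ := fun j => 131072 * (j + 1) ^ 2 - 1 with hq
  have hqe : ∀ j, q j + 1 = 131072 * (j + 1) ^ 2 := fun j => by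
    have : 0 < (j + 1) ^ 2 := by positivity
    simp only [hq]
    omega
  refine ⟨fun p => ∑ j ∈ range (M + 1), if p = q j then Y M j / 2 ^ 80 else 0, fun p => ?_,
    fun k hk => ?_⟩
  · beta_reduce
    by_cases h : ∃ j ∈ range (M + 1), p = q j
    · obtain ⟨j, hj, hp⟩ := h
      rw [sum_eq_single_of_mem j hj, if_pos hp, abs_div, abs_of_pos (a := (2 : ℝ) ^ 80)
        (by positivity), div_le_iff₀ (by positivity)]
      · exact (Y_le M j hj).trans (by norm_num)
      · intro j' _ hne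
        refine if_neg fun hp' => hne ?_
        have e1 := hqe j
        have e2 := hqe j'
        have : (j' + 1) ^ 2 = (j + 1) ^ 2 := by omega
        have := Nat.pow_left_injective (by norm_num) this
        omega
    · rw [sum_eq_zero fun j hj => if_neg fun hp => h ⟨j, hj, hp⟩, abs_zero]
      positivity
  · have hs : HasSum (fun p : ℕ => (∑ j ∈ range (M + 1), if p = q j then Y M j / 2 ^ 80 else 0) *
        κ (τ k) (p + 1)) (∑ j ∈ range (M + 1), 1 / 2 ^ 80 * (Y M j * (1 / (τ k ^ 2 + xx j)))) := by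
      simp only [sum_mul]
      refine hasSum_sum fun j _ => ?_
      have e : ((q j : ℕ) : ℝ) + 1 = 131072 * ((j : ℝ) + 1) ^ 2 := by exact_mod_cast hqe j
      have h := hasSum_ite_eq (q j) (1 / 2 ^ 80 * (Y M j * (1 / (τ k ^ 2 + xx j))))
      refine HasSum.congr_of_eq' h fun p => ?_
      split_ifs with h
      · rw [h, e, κ, xx]
        ring
      · rw [zero_mul]
    have hinj : Function.Injective xx := by
      refine StrictMono.injective fun a b h => ?_
      have : (a : ℝ) < b := by exact_mod_cast h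
      unfold xx
      gcongr
    have h := pf2 M xx uu hinj (fun _ => by unfold xx; positivity)
      (fun _ => by unfold uu; positivity) (τ k ^ 2) (by positivity)
    rw [hs.tsum_eq, ← mul_sum]
    simp only [Y]
    rw [h]
    obtain ⟨n, rfl⟩ := Nat.exists_eq_add_of_lt hk
    have a1 := amp k n
    have a2 := pb (24 * (k + 1)) (k + n + 1 + 1) (z := 24 * ((k : ℝ) + 1 / 2)) (by positivity)
      (by push_cast; linarith)
    have e1 : ∏ i ∈ range (k + n + 1), (1 - τ k ^ 2 / uu i) =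
        ∏ i ∈ range (k + (n + 1)), (1 - ((k : ℝ) + 1 / 2) ^ 4 / ((i : ℝ) + 1) ^ 4) :=
      prod_congr rfl fun i _ => by unfold τ uu; field_simp; ring
    have e2 : ∏ j ∈ range (k + n + 1 + 1), (1 + τ k ^ 2 / xx j) =
        ∏ i ∈ range (k + n + 1 + 1), (1 + (24 * ((k : ℝ) + 1 / 2)) ^ 4 / ((i : ℝ) + 1) ^ 4) :=
      prod_congr rfl fun i _ => by unfold τ xx; field_simp; ring
    rw [e1, e2, mul_left_comm, ← mul_div_assoc]
    have e3 : (1 / 2 : ℝ) ^ (291 * k + 371) =
        1 / 2 ^ 80 * ((1 / 2) ^ (3 * k + 3) / 4096 ^ (24 * (k + 1))) := by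
      rw [show (4096 : ℝ) = 2 ^ 12 by norm_num, ← pow_mul, one_div_pow, one_div_pow, div_div,
        one_div_mul_one_div, ← pow_add]
      rw [← pow_add, show 80 + (3 * k + 3 + 12 * (24 * (k + 1))) = 291 * k + 371 by omega]
    rw [e3]
    exact mul_le_mul_of_nonneg_left (div_le_div₀ (le_trans (by positivity) a1) a1
      (prod_pos fun _ _ => by positivity) a2) (by positivity)

end Pool.Agent.FS.ManyZeros
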