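import Pool.Agent.FS.ManyZeros.Quant
import Pool.Agent.FS.ManyZeros.Targ

set_option autoImplicit false

open Finset Filter Topology

namespace Pool.Agent.FS.ManyZeros

noncomputable def F (a : ℕ → ℝ) (t : ℝ) : ℝ := ∑' n : ℕ, a n * κ t (n + 1)

lemma sg_le {a : ℕ → ℝ} (h : ∀ n, a n = 1 ∨ a n = -1) (n : ℕ) : |a n| ≤ 1 := by
  rcases h n with h | h <;> simp [h]

lemma term_le {a : ℕ → ℝ} (ha : ∀ n, |a n| ≤ 1) (t : ℝ) (n : ℕ) :
    ‖a n * κ t (n + 1)‖ ≤ 1 / ((n : ℝ) + 1) ^ 2 := by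
  rw [Real.norm_eq_abs, abs_mul, abs_of_nonneg (κ_nonneg _ _)]
  exact (mul_le_of_le_one_left (κ_nonneg _ _) (ha n)).trans (κ_le (by positivity) le_rfl)

lemma F_cont {a : ℕ → ℝ} (ha : ∀ n, |a n| ≤ 1) : Continuous (F a) := by
  refine continuous_tsum (fun n => continuous_const.mul ?_) summable_sq fun n t => term_le ha t n
  exact continuous_const.div (by fun_prop) fun t => by positivity

lemma fin (M : ℕ) : ∃ a : ℕ → ℝ, (∀ n, a n = 1 ∨ a n = -1) ∧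
    ∀ k < M, (1 / 2) ^ (768 * (2 * k + 1)) ≤ (-1) ^ k * F a (τ k) := by
  obtain ⟨y, hy, hy'⟩ := targ M
  obtain ⟨a, ha, ha'⟩ := quant hy (768 * (2 * M + 1)) (c := 1) le_rfl
  refine ⟨a, ha, fun k hk => ?_⟩
  have a1 := hy' k hk
  have a2 := abs_le.1 (ha' (768 * (2 * k + 1)) (τ k) (by omega) (by omega)
    (by unfold τ; push_cast; exact le_rfl))
  have a3 : (1 / 2 : ℝ) ^ (768 * (2 * k + 1)) ≤ (1 / 2) ^ (291 * k + 371 + 2) :=
    pow_le_pow_of_le_one (by norm_num) (by norm_num) (by omega)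
  have a4 : (0 : ℝ) ≤ (1 / 2) ^ (768 * (2 * k + 1)) := by positivity
  rw [pow_add] at a3
  unfold F
  generalize (1 / 2 : ℝ) ^ (768 * (2 * k + 1)) = δ at *
  generalize (1 / 2 : ℝ) ^ (291 * k + 371) = η at *
  rcases neg_one_pow_eq_or ℝ k with h | h <;> rw [h] at a1 ⊢ <;> linarith [a2.1, a2.2]

lemma lim : ∃ a : ℕ → ℝ, (∀ n, a n = 1 ∨ a n = -1) ∧ ∀ k, 0 < (-1) ^ k * F a (τ k) := by
  choose b hb hb' using fin
  have hc : IsCompact (Set.pi Set.univ fun _ : ℕ => ({1, -1} : Set ℝ)) :=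
    isCompact_univ_pi fun _ => (Set.toFinite _).isCompact
  obtain ⟨a, ha, φ, hφ, hl⟩ := hc.tendsto_subseq (x := b) fun M n _ => hb M n
  refine ⟨a, fun n => ha n trivial, fun k => ?_⟩
  have h1 : Tendsto (fun M => F (b (φ M)) (τ k)) atTop (𝓝 (F a (τ k))) :=
    tendsto_tsum_of_dominated_convergence summable_sq
      (fun n => (tendsto_pi_nhds.1 hl n).mul_const _)
      (Eventually.of_forall fun M n => term_le (sg_le (hb _)) _ n)
  refine lt_of_lt_of_le (by positivity) (ge_of_tendsto (b := (1 / 2 : ℝ) ^ (768 * (2 * k + 1)))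
    (h1.const_mul _) ?_)
  filter_upwards [eventually_gt_atTop k] with M hM
  exact hb' _ k (hM.trans_le hφ.le_apply)

lemma zeros {f : ℝ → ℝ} (hf : Continuous f) {T : ℕ → ℝ} (hT : StrictMono T)
    (h : ∀ k, 0 < (-1) ^ k * f (T k)) (K : ℕ) :
    ∃ S : Finset ℝ, S.card = K ∧ ∀ t ∈ S, T 0 < t ∧ t < T K ∧ f t = 0 := by
  have h1 : ∀ k : ℕ, ∃ z, (T k < z ∧ z < T (k + 1)) ∧ f z = 0 := by
    intro k
    have a1 := h k
    have a2 := h (k + 1)
    rw [pow_succ] at a2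
    obtain ⟨z, hz, hz'⟩ := intermediate_value_Ioo' (f := fun t => (-1) ^ k * f t)
      (hT (Nat.lt_succ_self k)).le (continuous_const.mul hf).continuousOn
      (show (0 : ℝ) ∈ _ from ⟨by linarith, a1⟩)
    exact ⟨z, hz, (mul_eq_zero.1 hz').resolve_left (pow_ne_zero _ (by norm_num))⟩
  choose z hz using h1
  refine ⟨(range K).image z, ?_, fun t ht => ?_⟩
  · rw [card_image_of_injective, card_range]
    exact (strictMono_nat_of_lt_succ fun i => (hz i).1.2.trans (hz (i + 1)).1.1).injective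
  · obtain ⟨k, hk, rfl⟩ := mem_image.1 ht
    exact ⟨(hT.monotone (Nat.zero_le k)).trans_lt (hz k).1.1,
      (hz k).1.2.trans_le (hT.monotone (mem_range.1 hk)), (hz k).2⟩

theorem main : ∃ a : ℕ → ℝ, (∀ n, a n = 1 ∨ a n = -1) ∧ ∃ c : ℝ, 0 < c ∧ ∃ X₀ : ℝ, ∀ X, X₀ ≤ X →
    ∃ S : Finset ℝ, (∀ t ∈ S, |t| < X ∧ F a t = 0) ∧ c * √X ≤ S.card := by
  obtain ⟨a, ha, h⟩ := lim
  have hT : StrictMono τ := fun a b h => by
    have : (a : ℝ) < b := by exact_mod_cast h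
    unfold τ
    gcongr
  refine ⟨a, ha, 1 / 27648, by norm_num, 13824 ^ 2, fun X hX => ?_⟩
  obtain ⟨S, hS, hS'⟩ := zeros (F_cont (sg_le ha)) hT h ⌊√X / 13824⌋₊
  have h1 : 13824 ≤ √X := Real.le_sqrt_of_sq_le hX
  have h2 : (⌊√X / 13824⌋₊ : ℝ) ≤ √X / 13824 := Nat.floor_le (by positivity)
  have h3 : √X / 13824 < ⌊√X / 13824⌋₊ + 1 := Nat.lt_floor_add_one _
  have h4 : (1 : ℝ) ≤ ⌊√X / 13824⌋₊ := by
    exact_mod_cast (Nat.one_le_floor_iff _).2 ((one_le_div (by norm_num)).2 h1)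
  have h5 : √X ^ 2 = X := Real.sq_sqrt (le_trans (by positivity) hX)
  have h6 : τ ⌊√X / 13824⌋₊ ≤ X := by
    unfold τ
    have : 768 * (2 * (⌊√X / 13824⌋₊ : ℝ) + 1) ≤ √X / 6 := by linarith
    have h7 : (768 * (2 * (⌊√X / 13824⌋₊ : ℝ) + 1)) ^ 2 ≤ (√X / 6) ^ 2 := by gcongr
    nlinarith [sq_nonneg √X]
  have h0 : 0 < τ 0 := by unfold τ; positivity
  refine ⟨S, fun t ht => ⟨?_, (hS' t ht).2.2⟩, by rw [hS]; linarith⟩
  rw [abs_of_pos (h0.trans (hS' t ht).1)]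
  exact (hS' t ht).2.1.trans_le h6

end Pool.Agent.FS.ManyZeros
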