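import Pool.Agent.FS.ManyZeros.Dsum

set_option autoImplicit false

open Finset

namespace Pool.Agent.FS.ManyZeros

lemma split_erase (f : ℕ → ℝ) (j k : ℕ) : ∏ i ∈ (range (j + k + 1)).erase j, f i =
    (∏ i ∈ range j, f i) * ∏ i ∈ range k, f (j + i + 1) := by
  have h : (range (j + k + 1)).erase j = range j ∪ Ico (j + 1) (j + k + 1) := by
    ext i
    simp only [mem_erase, mem_range, mem_union, mem_Ico]
    omega
  rw [h, prod_union, prod_Ico_eq_prod_range]
  · congr 1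
    rw [show j + k + 1 - (j + 1) = k by omega]
    refine prod_congr rfl fun i _ => ?_
    rw [show j + 1 + i = j + i + 1 by omega]
  · rw [disjoint_left]
    intro i h1 h2
    simp only [mem_range, mem_Ico] at h1 h2
    omega

lemma core (l k : ℕ) : ∏ i ∈ (range (l + k + 1)).erase l,
    |((i : ℝ) + 1) ^ 2 / (((i : ℝ) + 1) ^ 2 - ((l : ℝ) + 1) ^ 2)| ≤ 2 := by
  have hl : (0 : ℝ) ≤ l := by positivity
  have h1 : 0 < 16 * ((l : ℝ) + 1) ^ 2 - 1 := by nlinarith
  have h := d_succ l k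
  have e0 : |(s 0 : ℝ) / ((s 0 : ℝ) - s (l + 1))| = 1 / (16 * ((l : ℝ) + 1) ^ 2 - 1) := by
    rw [s_zero, s_succ, abs_div, abs_sub_comm]
    simp [abs_of_pos h1]
  rw [d_split, prod_range_succ', e0] at h
  simp only [s_succ, ← mul_sub, mul_div_mul_left _ _ (by norm_num : (16 : ℝ) ≠ 0)] at h
  rw [split_erase (fun i => |((i : ℝ) + 1) ^ 2 / (((i : ℝ) + 1) ^ 2 - ((l : ℝ) + 1) ^ 2)|)]
  simp only [show ∀ i, l + 1 + i = l + i + 1 from fun i => by omega] at h
  rw [mul_right_comm, mul_one_div, div_le_div_iff_of_pos_right h1] at h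
  exact h

lemma half (l k : ℕ) : ∏ i ∈ (range (l + k + 1)).erase l,
    ((i : ℝ) + 1) ^ 2 / (((i : ℝ) + 1) ^ 2 + ((l : ℝ) + 1) ^ 2) ≤ (1 / 2) ^ l := by
  rw [split_erase (fun i => ((i : ℝ) + 1) ^ 2 / (((i : ℝ) + 1) ^ 2 + ((l : ℝ) + 1) ^ 2))]
  refine (mul_le_of_le_one_right (by positivity) (prod_le_one (fun _ _ => by positivity)
    fun i _ => div_le_one_of_le₀ (le_add_of_nonneg_right (by positivity)) (by positivity))).trans ?_
  refine (prod_le_prod (fun _ _ => by positivity) (g := fun _ => (1 / 2 : ℝ))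
    fun i hi => ?_).trans (by simp)
  have : (i : ℝ) ≤ l := by exact_mod_cast (mem_range.1 hi).le
  have h2 : ((i : ℝ) + 1) ^ 2 ≤ ((l : ℝ) + 1) ^ 2 := by gcongr
  rw [div_le_iff₀ (by positivity)]
  linarith

lemma fac_two (r : ℕ) : (r + r).factorial ≤ 4 ^ r * (r.factorial * r.factorial) := by
  induction r with
  | zero => simp
  | succ r ih =>
    rw [show r + 1 + (r + 1) = r + r + 1 + 1 by omega, Nat.factorial_succ, Nat.factorial_succ,
      Nat.factorial_succ r]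
    calc _ = ((r + r + 1 + 1) * (r + r + 1)) * (r + r).factorial := by ring
      _ ≤ (4 * ((r + 1) * (r + 1))) * (4 ^ r * (r.factorial * r.factorial)) :=
        Nat.mul_le_mul (by nlinarith) ih
      _ = _ := by ring

lemma cb (r M : ℕ) : ∏ i ∈ range M,
    ((r : ℝ) + 1 + i) * (r + 1 + i) / ((i + 1) * (((r + r : ℕ) : ℝ) + 1 + i)) ≤ 4 ^ r := by
  rw [prod_div_distrib, prod_mul_distrib, prod_mul_distrib, up1, up1, up0]
  have h3 : (((r + M).factorial : ℝ)) * (r + M).factorial ≤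
      (r + r + M).factorial * M.factorial := by
    have := fac_le r M (r + M) (by omega)
    rw [show M + r = r + M by omega, show r + M + r = r + r + M by omega] at this
    exact_mod_cast this
  have h4 : ((r + r).factorial : ℝ) ≤ 4 ^ r * (r.factorial * r.factorial) := by
    exact_mod_cast fac_two r
  have p1 : (0 : ℝ) < r.factorial := by positivity
  have p2 : (0 : ℝ) < M.factorial := by positivity
  have p3 : (0 : ℝ) < (r + r).factorial := by positivity
  have p4 : (0 : ℝ) < (r + r + M).factorial := by positivity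
  generalize (r.factorial : ℝ) = A at *
  generalize (M.factorial : ℝ) = B at *
  generalize ((r + r).factorial : ℝ) = C at *
  generalize ((r + r + M).factorial : ℝ) = D at *
  generalize ((r + M).factorial : ℝ) = E at *
  calc _ = C / (A * A) * (E * E / (D * B)) := by field_simp
    _ ≤ 4 ^ r * 1 := mul_le_mul ((div_le_iff₀ (by positivity)).2 h4)
        ((div_le_one (by positivity)).2 h3) (div_nonneg (mul_self_nonneg _) (by positivity))
        (by positivity)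
    _ = _ := mul_one _

lemma pb (r M : ℕ) {z : ℝ} (h0 : 0 ≤ z) (hz : z ≤ r) :
    ∏ i ∈ range M, (1 + z ^ 4 / ((i : ℝ) + 1) ^ 4) ≤ 4096 ^ r := by
  have h := pow_le_pow_left₀ (prod_nonneg fun _ _ => by positivity) (cb r M) 6
  rw [← prod_pow, ← pow_mul, mul_comm r, pow_mul] at h
  norm_num only at h
  refine (prod_le_prod (fun _ _ => by positivity) fun i _ => ?_).trans h
  have hr : (0 : ℝ) ≤ r := by positivity
  obtain ⟨I, hI⟩ : ∃ I : ℝ, I = i + 1 := ⟨_, rfl⟩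
  have hI0 : 0 < I := by rw [hI]; positivity
  push_cast
  rw [show (r : ℝ) + 1 + i = I + r by rw [hI]; ring,
    show (r : ℝ) + r + 1 + i = I + 2 * r by rw [hI]; ring, ← hI]
  have a1 : 1 + (r : ℝ) ^ 2 / I ^ 2 ≤ ((I + r) * (I + r) / (I * (I + 2 * r))) ^ 3 := by
    rw [one_add_div (by positivity), div_pow, div_le_div_iff₀ (by positivity) (by positivity),
      ← sub_nonneg]
    have : ((I + r) * (I + r)) ^ 3 * I ^ 2 - (I ^ 2 + r ^ 2) * (I * (I + 2 * r)) ^ 3 =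
        I ^ 2 * (r ^ 4 * (I - r) ^ 2 + 2 * I ^ 2 * r ^ 4 + 6 * I ^ 3 * r ^ 3 +
          2 * I ^ 4 * r ^ 2) := by ring
    rw [this]
    positivity
  calc 1 + z ^ 4 / I ^ 4 ≤ 1 + (r : ℝ) ^ 4 / I ^ 4 := by gcongr
    _ ≤ (1 + (r : ℝ) ^ 2 / I ^ 2) ^ 2 := by
      have : 0 ≤ (r : ℝ) ^ 2 / I ^ 2 := by positivity
      rw [show (r : ℝ) ^ 4 / I ^ 4 = ((r : ℝ) ^ 2 / I ^ 2) ^ 2 by ring]
      nlinarith
    _ ≤ (((I + r) * (I + r) / (I * (I + 2 * r))) ^ 3) ^ 2 := by gcongr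
    _ = _ := by rw [← pow_mul]

lemma nb (j : ℕ) : (j + 1) ^ 4 * 4096 ^ ((j + 1) / 24 + 1) ≤ 2 ^ 44 * 2 ^ j := by
  obtain ⟨q, hq⟩ : ∃ q, q = (j + 1) / 24 := ⟨_, rfl⟩
  rw [← hq]
  have h1 : j + 1 ≤ 24 * 2 ^ (q + 1) := by
    have := (Nat.lt_two_pow_self (n := q + 1)).le
    omega
  calc _ ≤ (24 * 2 ^ (q + 1)) ^ 4 * (2 ^ 12) ^ (q + 1) :=
        Nat.mul_le_mul (Nat.pow_le_pow_left h1 4) (by norm_num)
    _ = 24 ^ 4 * 2 ^ (16 * q + 16) := by
        rw [mul_pow, ← pow_mul, ← pow_mul, mul_assoc, ← pow_add]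
        congr 2
        ring
    _ ≤ 2 ^ 19 * 2 ^ (25 + j) :=
        Nat.mul_le_mul (by norm_num) (Nat.pow_le_pow_right (by norm_num) (by omega))
    _ = _ := by ring

/-- Size and sign of the numerator at the half-integer points. -/
lemma amp (k n : ℕ) : (1 / 2 : ℝ) ^ (3 * k + 3) ≤
    (-1) ^ k * ∏ i ∈ range (k + (n + 1)), (1 - ((k : ℝ) + 1 / 2) ^ 4 / ((i : ℝ) + 1) ^ 4) := by
  have hk : (0 : ℝ) ≤ k := by positivity
  obtain ⟨w, hw⟩ : ∃ w : ℝ, w = k + 1 / 2 := ⟨_, rfl⟩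
  have hw0 : 0 < w := by rw [hw]; positivity
  rw [← hw, prod_range_add, prod_range_succ', ← mul_assoc]
  have a1 : 1 ≤ (-1 : ℝ) ^ k * ∏ i ∈ range k, (1 - w ^ 4 / ((i : ℝ) + 1) ^ 4) := by
    have e : (-1 : ℝ) ^ k = ∏ _i ∈ range k, (-1 : ℝ) := by simp
    have e1 : ∏ i ∈ range k, ((k : ℝ) - i) / ((i : ℝ) + 1) = 1 := by
      rw [prod_div_distrib, low1, up0, div_self (by positivity)]
    rw [e, ← prod_mul_distrib]
    refine e1.symm.le.trans (prod_le_prod (fun i hi => ?_) fun i hi => ?_)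
    · have : (i : ℝ) ≤ k := by exact_mod_cast (mem_range.1 hi).le
      exact div_nonneg (by linarith) (by positivity)
    · have h1 : (i : ℝ) + 1 ≤ k := by exact_mod_cast mem_range.1 hi
      obtain ⟨I, hI⟩ : ∃ I : ℝ, I = i + 1 := ⟨_, rfl⟩
      have hI0 : 0 < I := by rw [hI]; positivity
      rw [show (k : ℝ) - i = w - I + 1 / 2 by rw [hw, hI]; ring, ← hI]
      have h2 : 1 / 2 ≤ w - I := by rw [hw, hI]; linarith
      rw [show -1 * (1 - w ^ 4 / I ^ 4) = (w - I) * ((w + I) * (w ^ 2 + I ^ 2)) / I ^ 4 by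
        field_simp; ring, div_le_div_iff₀ hI0 (by positivity)]
      have h3 : 2 * I * I ^ 2 ≤ (w + I) * (w ^ 2 + I ^ 2) :=
        mul_le_mul (by linarith) (by nlinarith) (by positivity) (by positivity)
      calc _ ≤ (2 * (w - I)) * I ^ 4 := by gcongr; linarith
        _ = (w - I) * (2 * I * I ^ 2) * I := by ring
        _ ≤ _ := by gcongr
  have sq : ∀ I : ℝ, w < I → 1 - w ^ 2 / I ^ 2 ≤ 1 - w ^ 4 / I ^ 4 := fun I hI => by
    have h1 : w ^ 2 / I ^ 2 ≤ 1 := div_le_one_of_le₀ (by gcongr) (by positivity)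
    have h2 : 0 ≤ w ^ 2 / I ^ 2 := by positivity
    rw [show w ^ 4 / I ^ 4 = (w ^ 2 / I ^ 2) ^ 2 by ring]
    nlinarith
  have a2 : (1 / 2 : ℝ) ^ (k + 1) ≤ 1 - w ^ 4 / (((k + 0 : ℕ) : ℝ) + 1) ^ 4 := by
    rw [add_zero]
    refine le_trans ?_ (sq _ (by linarith))
    have h1 : (k : ℝ) + 1 ≤ 2 ^ k := by exact_mod_cast Nat.lt_two_pow_self (n := k)
    rw [one_div_pow, one_sub_div (by positivity), div_le_div_iff₀ (by positivity) (by positivity),
      pow_succ 2, hw]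
    nlinarith [mul_le_mul_of_nonneg_left h1 (by positivity : (0 : ℝ) ≤ k + 3 / 4)]
  have a3 : (1 / 4 : ℝ) ^ (k + 1) ≤
      ∏ i ∈ range n, (1 - w ^ 4 / (((k + (i + 1) : ℕ) : ℝ) + 1) ^ 4) := by
    have h := one_div_le_one_div_of_le (prod_pos fun _ _ => by positivity) (cb (k + 1) n)
    rw [one_div_pow]
    refine h.trans ?_
    rw [one_div, ← prod_inv_distrib]
    refine prod_le_prod (fun _ _ => by positivity) fun i _ => ?_
    have hi : (0 : ℝ) ≤ i := by positivity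
    push_cast
    refine le_trans ?_ (sq _ (by linarith))
    rw [inv_div, one_sub_div (by positivity), show ((k : ℝ) + 1 + 1 + i) * (k + 1 + 1 + i) =
      (k + (i + 1) + 1) ^ 2 by ring, hw]
    gcongr
    nlinarith
  calc (1 / 2 : ℝ) ^ (3 * k + 3) = 1 * ((1 / 4) ^ (k + 1) * (1 / 2) ^ (k + 1)) := by
        rw [← mul_pow, show 3 * k + 3 = 3 * (k + 1) by ring, pow_mul]; norm_num
    _ ≤ _ := mul_le_mul a1 (mul_le_mul a3 a2 (by positivity) (le_trans (by positivity) a3))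
        (by positivity) (by linarith)

end Pool.Agent.FS.ManyZeros
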