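import Pool.Agent.FS.ManyZeros.Filt
import Pool.Agent.FS.ManyZeros.Dsum

set_option autoImplicit false

open Finset

namespace Pool.Agent.FS.ManyZeros

noncomputable def sg (w : ℝ) : ℝ := if 0 ≤ w then 1 else -1

/-- State of the one-bit quantiser. -/
noncomputable def vv (y : ℕ → ℝ) (m : ℕ) (n : ℕ) : ℝ :=
  (fun w => w - sg w) (y n + ∑ j ∈ range (m + 1), d m j *
    (if _h : 1 ≤ s j ∧ s j ≤ n then vv y m (n - s j) else 0))
termination_by n
decreasing_by omega

noncomputable def ww (y : ℕ → ℝ) (m n : ℕ) : ℝ :=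
  y n + ∑ j ∈ range (m + 1), d m j * (if s j ≤ n then vv y m (n - s j) else 0)

lemma vv_eq (y : ℕ → ℝ) (m n : ℕ) : vv y m n = ww y m n - sg (ww y m n) := by
  rw [vv, ww]
  simp only [s_pos, true_and, dite_eq_ite]

lemma vv_le {y : ℕ → ℝ} (hy : ∀ n, |y n| ≤ 1 / 2) (m n : ℕ) : |vv y m n| ≤ 1 := by
  induction n using Nat.strong_induction_on with
  | _ n ih =>
    have h1 : |∑ j ∈ range (m + 1), d m j * (if s j ≤ n then vv y m (n - s j) else 0)| ≤ 3 / 2 := by
      refine (abs_sum_le_sum_abs _ _).trans (le_trans (sum_le_sum fun j _ => ?_) (d_sum m))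
      rw [abs_mul]
      refine mul_le_of_le_one_right (abs_nonneg _) ?_
      split_ifs with h
      · exact ih _ (by have := s_pos j; omega)
      · simp
    have h2 := hy n
    rw [vv_eq]
    rw [abs_le] at h1 h2 ⊢
    have h3 : -2 ≤ ww y m n ∧ ww y m n ≤ 2 := by
      unfold ww
      constructor <;> linarith [h1.1, h1.2, h2.1, h2.2]
    unfold sg
    split_ifs with h
    · constructor <;> linarith [h3.1, h3.2]
    · constructor <;> linarith [h3.1, h3.2, not_le.1 h]

lemma hasSum_shift {v : ℕ → ℝ} (hv : ∀ n, |v n| ≤ 1) (t : ℝ) {c : ℝ} (hc : 1 ≤ c) (p : ℕ) :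
    HasSum (fun n : ℕ => (if p ≤ n then v (n - p) else 0) * κ t (n + c))
      (∑' n : ℕ, v n * κ t (n + (c + p))) := by
  rw [← hasSum_nat_add_iff' p]
  have h0 : ∑ i ∈ range p, (if p ≤ i then v (i - p) else 0) * κ t (i + c) = 0 :=
    sum_eq_zero fun i hi => by rw [if_neg (not_le.2 (mem_range.1 hi)), zero_mul]
  rw [h0, sub_zero]
  have hp : (0 : ℝ) ≤ p := by positivity
  refine HasSum.congr_of_eq' (summable_κ hv t (c := c + p) (by linarith)).hasSum fun n => ?_
  rw [if_pos (Nat.le_add_left p n), Nat.add_sub_cancel]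
  push_cast
  ring_nf

/-- One-bit quantisation with a tiny error against all kernels with large `t`. -/
lemma quant {y : ℕ → ℝ} (hy : ∀ n, |y n| ≤ 1 / 2) (m : ℕ) {c : ℝ} (hc : 1 ≤ c) :
    ∃ a : ℕ → ℝ, (∀ n, a n = 1 ∨ a n = -1) ∧ ∀ (l : ℕ) (t : ℝ), 1 ≤ l → l ≤ m →
      32 * (l : ℝ) ^ 2 ≤ t →
      |∑' n : ℕ, y n * κ t (n + c) - ∑' n : ℕ, a n * κ t (n + c)| ≤ 2 * (1 / 2) ^ l := by
  have hsg : ∀ w, sg w = 1 ∨ sg w = -1 := fun w => by unfold sg; split_ifs <;> simp
  refine ⟨fun n => sg (ww y m n), fun n => hsg _, fun l t hl hlm ht => ?_⟩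
  have hv := vv_le hy m
  have ha : ∀ n, |sg (ww y m n)| ≤ 1 := fun n => by rcases hsg (ww y m n) with h | h <;> simp [h]
  have hp : ∀ j, (1 : ℝ) ≤ c + s j := fun j => by
    have : (0 : ℝ) ≤ s j := by positivity
    linarith
  have h1 := ((summable_κ hy t hc).hasSum).sub (summable_κ ha t hc).hasSum
  have h2 := (summable_κ hv t hc).hasSum.sub (hasSum_sum (s := range (m + 1))
    fun j _ => (hasSum_shift hv t hc (s j)).mul_left (d m j))
  have h3 := (summable_κ hv t hc).hasSum.sub (hasSum_sum (s := range (m + 1))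
    fun j _ => ((summable_κ hv t (hp j)).hasSum).mul_left (d m j))
  have e12 := h1.unique (HasSum.congr_of_eq' h2 fun n => by
    rw [vv_eq]
    simp only [← mul_assoc, ← sum_mul]
    unfold ww
    ring)
  rw [e12, ← h3.tsum_eq]
  have hb : ∀ n : ℕ, ‖vv y m n * κ t (n + c) -
      ∑ j ∈ range (m + 1), d m j * (vv y m n * κ t (n + (c + s j)))‖ ≤
      (1 / 2) ^ l * (1 / ((n : ℝ) + 1) ^ 2) := by
    intro n
    have hn : (0 : ℝ) ≤ n := by positivity
    have := filt l (m - l) 1 t (n + c) le_rfl hl (by linarith) (by simpa using ht)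
    rw [Nat.add_sub_cancel' hlm] at this
    simp only [Nat.cast_one, one_mul, add_assoc] at this
    simp only [mul_left_comm (d m _), ← mul_sum, ← mul_sub, Real.norm_eq_abs, abs_mul]
    refine (mul_le_of_le_one_left (abs_nonneg _) (hv n)).trans (this.trans ?_)
    rw [mul_one_div]
    gcongr
  have := tsum_of_norm_bounded (summable_sq.mul_left ((1 / 2 : ℝ) ^ l)).hasSum hb
  rw [tsum_mul_left] at this
  refine this.trans ?_
  rw [mul_comm]
  exact mul_le_mul_of_nonneg_right tsum_sq_le (by positivity)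

end Pool.Agent.FS.ManyZeros
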